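import Pool.Agent.Helper29.QP.Main

set_option autoImplicit false

open Pool.Agent.Helper29.QP

namespace Pool.Agent.Results.MP_55050e_al.PiqEqPi

universe u

/-- The `q`-primitivity rank of a word in a free group of finite rank equals its primitivity rank,
over every field `K`. -/
theorem result (r : ℕ) (K : Type u) [Field K] (w : FreeGroup (Fin r)) :
    primRankK K w = primRank w :=
  main w

end Pool.Agent.Results.MP_55050e_al.PiqEqPi
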